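import Pool.Agent.Y169.GP.All
import Pool.Agent.H689R3.QuadI

/-!
# Rational maps of minimal degree from arbitrary products of curves

Let `C₁, …, C_n` be curves over `ℂ`, at least two of which are not rational (gonality at least
two). Then there is a dominant rational map `C₁ × ⋯ × C_n ⇢ ℙⁿ` of degree `∏ gon C_i` which is not
birationally equivalent to a product of rational maps `C_i ⇢ ℙ¹`. If all the curves are rational,
or if `n = 1`, every map of this degree is birationally equivalent to a product.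

The map is `(x₁, …, x_j + v, …, x_n)`, where `x_i` is a function of degree `gon C_i` on `C_i` and
`v` is a function on a curve `C_i`, `i ≠ j`, of maximal gonality which generates its function field
over `ℂ(x_i)`. It is distinguished from the products by the number of embeddings of `ℂ(X)` in a
field of Laurent series which extend a suitable embedding of `ℂ(ℙⁿ)`.
-/

set_option autoImplicit false

namespace Pool.Agent.Results.MP_5a3d27_ag.AllProducts

open Pool.Agent.Y169.GP
open scoped TensorProduct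

theorem result :
    -- (1) all `n` and all curves, at least two of which have gonality at least two
    (∀ (n : ℕ) (F : Fin n → Type) [∀ i, Field (F i)] [∀ i, Algebra ℂ (F i)]
      (K : Type) [Field K] [Algebra ℂ K] [Algebra (⨂[ℂ] i, F i) K]
      [IsScalarTower ℂ (⨂[ℂ] i, F i) K] [IsFractionRing (⨂[ℂ] i, F i) K],
      (∀ i, IsCurveField (F i)) →
      (∃ i j, i ≠ j ∧ 2 ≤ gonality (F i) ∧ 2 ≤ gonality (F j)) →
      ∃ φ : SpaceField n →ₐ[ℂ] K, mapDegree φ = ∏ i, gonality (F i) ∧
        ∀ ψ : SpaceField n →ₐ[ℂ] K, IsProductMap F K ψ → ¬ BirationallyEquivalent φ ψ) ∧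
    -- (2) in particular all products of at least two curves of genus two: `y² = P(x)` with `P`
    -- squarefree of degree 5 or 6, or of higher genus with `P` of higher degree
    (∀ (n : ℕ) (P : Fin n → Polynomial ℂ), 2 ≤ n → (∀ i, Squarefree (P i)) →
      (∀ i, 4 ≤ (P i).natDegree) →
      ∀ (F : Fin n → Type) [∀ i, Field (F i)] [∀ i, Algebra ℂ (F i)]
      (K : Type) [Field K] [Algebra ℂ K] [Algebra (⨂[ℂ] i, F i) K]
      [IsScalarTower ℂ (⨂[ℂ] i, F i) K] [IsFractionRing (⨂[ℂ] i, F i) K],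
      (∀ i, Pool.Agent.H689R3.ProdMaps.IsDoubleCoverField (P i) (F i)) →
      ∃ φ : SpaceField n →ₐ[ℂ] K, mapDegree φ = ∏ i, gonality (F i) ∧ mapDegree φ = 2 ^ n ∧
        ∀ ψ : SpaceField n →ₐ[ℂ] K, IsProductMap F K ψ → ¬ BirationallyEquivalent φ ψ) ∧
    -- (3) conversely: one curve, or only rational curves
    (∀ (n : ℕ) (F : Fin n → Type) [∀ i, Field (F i)] [∀ i, Algebra ℂ (F i)]
      (K : Type) [Field K] [Algebra ℂ K] [Algebra (⨂[ℂ] i, F i) K]
      [IsScalarTower ℂ (⨂[ℂ] i, F i) K] [IsFractionRing (⨂[ℂ] i, F i) K],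
      (∀ i, IsCurveField (F i)) → (n = 1 ∨ ∀ i, gonality (F i) = 1) →
      ∀ φ : SpaceField n →ₐ[ℂ] K, mapDegree φ = ∏ i, gonality (F i) →
        ∃ ψ : SpaceField n →ₐ[ℂ] K, IsProductMap F K ψ ∧ BirationallyEquivalent φ ψ) := by
  refine ⟨final, ?_, easy_all⟩
  intro n P hn hsq hdeg F _ _ K _ _ _ _ _ hF
  have hg : ∀ i, IsCurveField (F i) ∧ gonality (F i) = 2 := fun i =>
    Pool.Agent.H689R3.Quad.doubleCover_gonality (hsq i) (hdeg i) (hF i)
  obtain ⟨φ, h1, h2⟩ := final n F K (fun i => (hg i).1)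
    ⟨⟨0, by omega⟩, ⟨1, by omega⟩, by simp [Fin.ext_iff], (hg _).2.ge, (hg _).2.ge⟩
  refine ⟨φ, h1, ?_, h2⟩
  rw [h1, Finset.prod_congr rfl (fun i _ => (hg i).2)]
  simp

end Pool.Agent.Results.MP_5a3d27_ag.AllProducts
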